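import Pool.Agent.H5St.Profile

/-!
# The real inequalities for `θ ≤ 1 / 2`

As in `H5St.Feas`, but now the row `0` of `A` has at least the density `1 + d` with
`d ≥ 1 - 2 θ`; the first part of the density has the mass `m1 = (1 + d) f / (s - d)` and the excess
`ρ = (1 + θ) (s - d) / (1 + d)`.
-/

set_option autoImplicit false

namespace Pool.Agent.H5Lo

open Pool.Agent.H5St

/-- `Q` times the flow which leaves the points of the row `0` from the mass `c` on. -/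
noncomputable def tlo (ρ θ s m1 m2 c : ℝ) : ℝ :=
  ρ * (m1 - min c m1) + (1 - s) / 2 * ((1 + s - m2) - min c (1 + s - m2)) +
    (s + θ) * (1 + s - c)

theorem tlo_le {ρ θ s m1 m2 c f R : ℝ} (h1 : ρ * m1 = (1 + θ) * f) (h2 : (1 - s) * m2 = 2 * f)
    (h12 : m1 ≤ 1 + s - m2)
    (A1 : (θ + (1 + s) / 2) * (1 + s - c) + θ * f - ρ * c ≤ R)
    (A2 : (θ + (1 + s) / 2) * (1 + s - c) - f ≤ R)
    (A3 : (s + θ) * (1 + s - c) ≤ R) : tlo ρ θ s m1 m2 c ≤ R := by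
  unfold tlo
  rcases le_total c m1 with h | h
  · rw [min_eq_left h, min_eq_left (h.trans h12)]
    refine le_trans (le_of_eq ?_) A1
    linear_combination h1 - 1 / 2 * h2
  · rw [min_eq_right h]
    rcases le_total c (1 + s - m2) with h' | h'
    · rw [min_eq_left h']
      refine le_trans (le_of_eq ?_) A2
      linear_combination (-1 / 2) * h2
    · rw [min_eq_right h']
      refine le_trans (le_of_eq ?_) A3
      ring

section

variable {ρ θ s d f x c m1 m2 : ℝ}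

/-- The case of many reached points after the first point of the row `1`. -/
theorem lo_one (hθ0 : 0 ≤ θ) (hθ : θ ≤ 1 / 2) (hd1 : d ≤ 1) (hds : d ≤ s)
    (hd : 1 - 2 * θ ≤ d) (hρ : (1 + d) * ρ = (1 + θ) * (s - d)) (hρ0 : 0 ≤ ρ)
    (h1 : ρ * m1 = (1 + θ) * f) (h2 : (1 - s) * m2 = 2 * f) (h12 : m1 ≤ 1 + s - m2)
    (hf : 0 ≤ f) (hfs : f ≤ s - d) (hx0 : 0 ≤ x) (hx1 : x ≤ 1) (hc : (1 + d) * x ≤ c)
    (hc2 : 2 * x - (1 - s) ≤ c) (hv : (1 + s) * x - c ≤ f) :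
    tlo ρ θ s m1 m2 c ≤ (θ + s - (1 - θ) * d) * (1 - x) + (1 + s) / 2 * (1 + s - c) := by
  refine tlo_le h1 h2 h12 ?_ ?_ ?_
  · have e1 : (θ + ρ) * ((1 + d) * x) ≤ (θ + ρ) * c := mul_le_mul_of_nonneg_left hc (by linarith)
    have e2 : θ * f ≤ θ * (s - d) := mul_le_mul_of_nonneg_left hfs hθ0
    have e3 : 0 ≤ (1 - 2 * θ) * (s - d) := mul_nonneg (by linarith) (by linarith)
    have e4 : 0 ≤ θ * (s - d) * x := mul_nonneg (mul_nonneg hθ0 (by linarith)) hx0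
    have e5 : ρ * ((1 + d) * x) = (1 + θ) * (s - d) * x := by linear_combination x * hρ
    nlinarith
  · have e1 : θ * ((1 + s) * x - c) ≤ θ * f := mul_le_mul_of_nonneg_left hv hθ0
    have e2 : 0 ≤ (1 - θ) * f := mul_nonneg (by linarith) hf
    have e3 : 0 ≤ (1 - θ) * (s - d) * (1 - x) :=
      mul_nonneg (mul_nonneg (by linarith) (by linarith)) (by linarith)
    nlinarith
  · have e1 : (θ - 1 / 2 + s / 2) * (1 + s - c) ≤ (θ - 1 / 2 + s / 2) * (2 * (1 - x)) :=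
      mul_le_mul_of_nonneg_left (by linarith) (by linarith)
    have e2 : 0 ≤ (1 - θ) * (1 - d) * (1 - x) :=
      mul_nonneg (mul_nonneg (by linarith) (by linarith)) (by linarith)
    nlinarith

/-- The case of a late first point of the row `0`. -/
theorem lo_late (hθ0 : 0 ≤ θ) (hd0 : 0 ≤ d) (hds : d ≤ s)
    (hρ : (1 + d) * ρ = (1 + θ) * (s - d)) (hρ0 : 0 ≤ ρ)
    (h1 : ρ * m1 = (1 + θ) * f) (h2 : (1 - s) * m2 = 2 * f) (h12 : m1 ≤ 1 + s - m2)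
    (hfs : f ≤ (s - d) * x) (hc : (1 + d) * x ≤ c)
    (hc2 : 2 * x - (1 - s) ≤ c) (hv : (1 + s) * x - c ≤ f) :
    tlo ρ θ s m1 m2 c ≤ (1 + s) * (1 - x) + (θ - (1 - s) / 2) * (1 + s - c) := by
  refine tlo_le h1 h2 h12 ?_ ?_ ?_
  · have e1 : (1 + ρ) * ((1 + d) * x) ≤ (1 + ρ) * c := mul_le_mul_of_nonneg_left hc (by linarith)
    have e2 : θ * f ≤ θ * ((s - d) * x) := mul_le_mul_of_nonneg_left hfs hθ0
    have e5 : ρ * ((1 + d) * x) = (1 + θ) * (s - d) * x := by linear_combination x * hρ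
    nlinarith
  · nlinarith
  · nlinarith [mul_le_mul_of_nonneg_left hc2 (show (0 : ℝ) ≤ (1 + s) / 2 by linarith)]

/-- The case of an early first point of the row `0` and a late first point of the row `1`. -/
theorem lo_mid (hd0 : 0 ≤ d) (hds : d ≤ s)
    (hs1 : s ≤ 1) (hd : 1 - 2 * θ ≤ d) (hρ : (1 + d) * ρ = (1 + θ) * (s - d)) (hρ0 : 0 ≤ ρ)
    (h1 : ρ * m1 = (1 + θ) * f) (h2 : (1 - s) * m2 = 2 * f) (h12 : m1 ≤ 1 + s - m2)
    {x' β : ℝ} (hxx : x ≤ x') (hfs : f ≤ (s - d) * x') (hc : (1 + d) * x ≤ c)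
    (hc2 : 2 * x - (1 - s) ≤ c) (hv : (1 + s) * x - c ≤ f)
    (hβ : β ≤ 2 * (1 - x) - (1 + s - c)) (hβ' : β ≤ 2 * (1 - x') - (f + (1 + s) * (1 - x'))) :
    tlo ρ θ s m1 m2 c ≤ 2 * (θ + s) * (1 - x) - (θ - (1 - s) / 2) * β := by
  have hg : 0 ≤ θ - (1 - s) / 2 := by linarith
  have e0 := mul_le_mul_of_nonneg_left hβ hg
  refine tlo_le h1 h2 h12 ?_ ?_ ?_
  · have e1 := mul_le_mul_of_nonneg_left hβ' hg
    have e2 : (θ + (1 + s) / 2 + ρ) * ((1 + d) * x) ≤ (θ + (1 + s) / 2 + ρ) * c :=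
      mul_le_mul_of_nonneg_left hc (by linarith)
    have e3 : 0 ≤ (1 - s) / 2 * ((s - d) * x' - f) := mul_nonneg (by linarith) (by linarith)
    have e4 : 0 ≤ (1 - s) / 2 * ((d - (1 - 2 * θ)) * (x' - x)) :=
      mul_nonneg (by linarith) (mul_nonneg (by linarith) (by linarith))
    have e5 : ρ * ((1 + d) * x) = (1 + θ) * (s - d) * x := by linear_combination x * hρ
    nlinarith
  · nlinarith
  · nlinarith [mul_le_mul_of_nonneg_left hc2 (show (0 : ℝ) ≤ (1 + s) / 2 by linarith)]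

/-- The case of an early first point of the row `0` and a first point of the row `1` before `x'`;
`a'` is the mass of the row `0` after `x'`. -/
theorem lo_early (hθ0 : 0 ≤ θ) (hθ : θ ≤ 1 / 2) (hd0 : 0 ≤ d) (hds : d ≤ s)
    (hd : 1 - 2 * θ ≤ d) (hρ : (1 + d) * ρ = (1 + θ) * (s - d)) (hρ0 : 0 ≤ ρ)
    (h1 : ρ * m1 = (1 + θ) * f) (h2 : (1 - s) * m2 = 2 * f) (h12 : m1 ≤ 1 + s - m2)
    {a' β : ℝ} (ha' : f ≤ a') (hf : 0 ≤ f) (hx0 : 0 ≤ x) (hc : (1 + d) * x ≤ c)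
    (hc2 : 2 * x - (1 - s) ≤ c) (hv : (1 + s) * x - c ≤ f)
    (hβ : β ≤ 2 * (1 - x) - (1 + s - c)) :
    tlo ρ θ s m1 m2 c ≤ 2 * (θ + s) * (1 - x) - (θ - (1 - s) / 2) * β + (1 - θ) * a' := by
  have hg : 0 ≤ θ - (1 - s) / 2 := by linarith
  have e0 := mul_le_mul_of_nonneg_left hβ hg
  have ea : (1 - θ) * f ≤ (1 - θ) * a' := mul_le_mul_of_nonneg_left ha' (by linarith)
  have ef : 0 ≤ (1 - 2 * θ) * f := mul_nonneg (by linarith) hf
  have eg : 0 ≤ θ * f := mul_nonneg hθ0 hf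
  refine tlo_le h1 h2 h12 ?_ ?_ ?_
  · have e1 : (1 + ρ) * ((1 + d) * x) ≤ (1 + ρ) * c := mul_le_mul_of_nonneg_left hc (by linarith)
    have e2 : 0 ≤ θ * (s - d) * x := mul_nonneg (mul_nonneg hθ0 (by linarith)) hx0
    have e5 : ρ * ((1 + d) * x) = (1 + θ) * (s - d) * x := by linear_combination x * hρ
    nlinarith
  · nlinarith
  · nlinarith [mul_le_mul_of_nonneg_left hc2 (show (0 : ℝ) ≤ (1 + s) / 2 by linarith)]

end

end Pool.Agent.H5Lo
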