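import Pool.Agent.H5Lo.Feas

/-!
# The three-valued density is feasible for `θ ≤ 1 / 2`
-/

set_option autoImplicit false

namespace Pool.Agent.H5Lo

open Pool.Agent.H5St

variable {L l' : ℕ} {s f d θ : ℝ} {C0 C1 : ℕ → ℝ}

theorem f_le_lo (H : Prof L s f C0 C1 l')
    (hlow : ∀ l ≤ L, (1 + d) * ((l : ℝ) / L) ≤ C0 l) : f ≤ (s - d) * ((l' : ℝ) / L) := by
  have h1 := hlow l' H.hl'
  have h2 := H.hf
  nlinarith

theorem f_mul_lo (H : Prof L s f C0 C1 l') (hds : d ≤ s)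
    (hlow : ∀ l ≤ L, (1 + d) * ((l : ℝ) / L) ≤ C0 l) :
    (1 - d) * f ≤ (1 - s) * (s - d) := by
  have h1 := mul_le_mul_of_nonneg_left (f_le_lo H hlow) (sub_nonneg.2 H.hs1)
  have h2 := mul_le_mul_of_nonneg_left H.f_le' (sub_nonneg.2 hds)
  nlinarith

/-- Either `f = 0` or `d < s < 1`. -/
theorem f_cases (H : Prof L s f C0 C1 l') (hds : d ≤ s)
    (hlow : ∀ l ≤ L, (1 + d) * ((l : ℝ) / L) ≤ C0 l) :
    f = 0 ∨ (0 < f ∧ 0 < s - d ∧ 0 < 1 - s) := by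
  rcases H.hf0.eq_or_lt with h | h
  · exact Or.inl h.symm
  · refine Or.inr ⟨h, ?_, ?_⟩
    · rcases (sub_nonneg.2 hds).eq_or_lt with h1 | h1
      · have := f_le_lo H hlow
        rw [← h1, zero_mul] at this
        linarith
      · exact h1
    · rcases (sub_nonneg.2 H.hs1).eq_or_lt with h1 | h1
      · have := H.f_le'
        rw [← h1, zero_mul] at this
        linarith
      · exact h1

theorem m1_lo (H : Prof L s f C0 C1 l') (hd0 : 0 ≤ d) (hds : d ≤ s)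
    (hlow : ∀ l ≤ L, (1 + d) * ((l : ℝ) / L) ≤ C0 l) :
    (1 + θ) * (s - d) / (1 + d) * ((1 + d) * f / (s - d)) = (1 + θ) * f := by
  have h0 : 0 < 1 + d := by linarith
  rcases f_cases H hds hlow with h | ⟨-, h1, -⟩
  · rw [h]
    ring
  · field_simp

theorem m_le_lo (H : Prof L s f C0 C1 l') (hd0 : 0 ≤ d) (hds : d ≤ s)
    (hlow : ∀ l ≤ L, (1 + d) * ((l : ℝ) / L) ≤ C0 l) :
    (1 + d) * f / (s - d) ≤ 1 + s - 2 * f / (1 - s) := by
  have hs := H.hs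
  rcases f_cases H hds hlow with h | ⟨hf, h1, h2⟩
  · rw [h]
    simp only [mul_zero, zero_div, sub_zero]
    linarith
  · have h3 := f_mul_lo H hds hlow
    have hd1 : 0 < 1 - d := by linarith
    have a1 : (1 - d) * ((1 + d) * f / (s - d)) ≤ (1 + d) * (1 - s) := by
      rw [← mul_div_assoc, div_le_iff₀ h1]
      have := mul_le_mul_of_nonneg_left h3 (show (0 : ℝ) ≤ 1 + d by linarith)
      linarith
    have a2 : (1 - d) * (2 * f / (1 - s)) ≤ 2 * (s - d) := by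
      rw [← mul_div_assoc, div_le_iff₀ h2]
      linarith
    have a3 : (1 - d) * ((1 + d) * f / (s - d)) ≤ (1 - d) * (1 + s - 2 * f / (1 - s)) := by
      nlinarith
    exact le_of_mul_le_mul_left a3 hd1

theorem m1_nonneg_lo (H : Prof L s f C0 C1 l') (hd0 : 0 ≤ d) (hds : d ≤ s) :
    0 ≤ (1 + d) * f / (s - d) :=
  div_nonneg (mul_nonneg (by linarith) H.hf0) (by linarith)

/-- **Feasibility.** -/
theorem feas_lo (H : Prof L s f C0 C1 l') {h P : ℝ} (hθ0 : 0 ≤ θ) (hθ : θ ≤ 1 / 2)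
    (hd0 : 0 ≤ d) (hd1 : d ≤ 1) (hds : d ≤ s) (hd : 1 - 2 * θ ≤ d) (hh : 1 - h ≤ d)
    (hlow : ∀ l ≤ L, (1 + d) * ((l : ℝ) / L) ≤ C0 l) {z0 z1 : ℕ}
    (hz0 : z0 ≤ L) (hz1 : z1 ≤ L)
    (hP1 : z1 ≤ z0 → (θ + s) * (1 - (z0 : ℝ) / L) + (1 + s) * (1 - (z1 : ℝ) / L) ≤ P)
    (hP2 : z0 ≤ z1 → z1 - z0 ≤ L - z1 → (2 * (θ + s) + (1 - θ) * h) * (1 - (z0 : ℝ) / L) ≤ P)
    (hP3 : z0 ≤ z1 → L - z1 ≤ z1 - z0 →
      2 * (θ + s) * (1 - (z0 : ℝ) / L) + 2 * (1 - θ) * (1 - (z1 : ℝ) / L) ≤ P) :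
    tlo ((1 + θ) * (s - d) / (1 + d)) θ s ((1 + d) * f / (s - d)) (2 * f / (1 - s)) (C0 z0) +
      (1 + s) / 2 * (1 - s - C1 z1) ≤ P := by
  obtain ⟨x, hx⟩ : ∃ x, x = (z0 : ℝ) / L := ⟨_, rfl⟩
  obtain ⟨y, hy⟩ : ∃ y, y = (z1 : ℝ) / L := ⟨_, rfl⟩
  obtain ⟨x', hx'⟩ : ∃ x', x' = (l' : ℝ) / L := ⟨_, rfl⟩
  have px := pos_div H.hL hz0
  have py := pos_div H.hL hz1
  have px' := pos_div H.hL H.hl'
  have l0 := hlow z0 hz0
  have l1 := H.low z0 hz0
  have l2 := H.low z1 hz1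
  have l3 := H.low l' H.hl'
  have v0 := H.hv z0 hz0
  have fe := H.hf
  have f1 := f_le_lo H hlow
  have u0 := H.up0 z0
  have u1 := H.up0 z1
  have w0 := H.up1 z0
  have hs := H.hs
  have hs1 := H.hs1
  have hf0 := H.hf0
  rw [← hx] at px l0 l1 v0
  rw [← hy] at py l2
  rw [← hx'] at px' l3 fe f1
  rw [← hx, ← hy] at hP1 hP3
  rw [← hx] at hP2
  obtain ⟨c, hc⟩ : ∃ c, c = C0 z0 := ⟨_, rfl⟩
  obtain ⟨β, hβ⟩ : ∃ β, β = 1 - s - C1 z1 := ⟨_, rfl⟩
  obtain ⟨ρ, hρe⟩ : ∃ ρ, ρ = (1 + θ) * (s - d) / (1 + d) := ⟨_, rfl⟩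
  have h0 : 0 < 1 + d := by linarith
  have hρ : (1 + d) * ρ = (1 + θ) * (s - d) := by
    rw [hρe]
    field_simp
  have hρ0 : 0 ≤ ρ := by
    rw [hρe]
    exact div_nonneg (mul_nonneg (by linarith) (by linarith)) h0.le
  have hm1 : ρ * ((1 + d) * f / (s - d)) = (1 + θ) * f := by
    rw [hρe]
    exact m1_lo H hd0 hds hlow
  have hml := m_le_lo H hd0 hds hlow
  rw [← hβ, ← hρe]
  rw [← hc] at l0 l1 v0 u0 ⊢
  have hfs : f ≤ s - d := f1.trans (by nlinarith [px'.2])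
  have hc2 : 2 * x - (1 - s) ≤ c := by linarith
  have hβy : β ≤ 2 * (1 - y) - (1 + s - C0 z1) := by
    rw [hβ]
    linarith
  have hβY : β ≤ 2 * (1 - y) := by linarith
  have hg : 0 ≤ θ - (1 - s) / 2 := by linarith
  have hθ' : 0 ≤ 1 - θ := by linarith
  have c1 := lo_one hθ0 hθ hd1 hds hd hρ hρ0 hm1 H.m2_eq hml hf0 hfs px.1 px.2 l0 hc2 v0
  rcases le_total z1 z0 with h' | h'
  · refine le_trans ?_ (hP1 h')
    have h1 : C0 z1 ≤ c := by rw [hc]; exact H.mono0 h'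
    have h2 : (1 + s) / 2 * β ≤ (1 + s) / 2 * (2 * (1 - y) - (1 + s - c)) :=
      mul_le_mul_of_nonneg_left (by linarith) (by linarith)
    have h3 : 0 ≤ (1 - θ) * d * (1 - x) :=
      mul_nonneg (mul_nonneg hθ' hd0) (by linarith [px.2])
    nlinarith
  · have h1 : C1 z0 ≤ C1 z1 := H.mono1 h'
    have hβx : β ≤ 2 * (1 - x) - (1 + s - c) := by
      rw [hβ]
      linarith
    rcases le_total (z1 - z0) (L - z1) with h'' | h''
    · refine le_trans ?_ (hP2 h' h'')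
      have h2 : (1 + s) / 2 * β ≤ (1 + s) / 2 * (2 * (1 - x) - (1 + s - c)) :=
        mul_le_mul_of_nonneg_left hβx (by linarith)
      have h3 : 0 ≤ (1 - θ) * (d - (1 - h)) * (1 - x) :=
        mul_nonneg (mul_nonneg hθ' (by linarith)) (by linarith [px.2])
      nlinarith
    · refine le_trans ?_ (hP3 h' h'')
      have h3 : (1 - θ) * β ≤ (1 - θ) * (2 * (1 - y)) := mul_le_mul_of_nonneg_left hβY hθ'
      rcases le_total l' z0 with h4 | h4
      · have h5 : x' ≤ x := by rw [hx, hx']; exact mono_div h4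
        have h6 := lo_late hθ0 hd0 hds hρ hρ0 hm1 H.m2_eq hml
          (f1.trans (mul_le_mul_of_nonneg_left h5 (by linarith))) l0 hc2 v0
        have h7 : (θ - (1 - s) / 2) * β ≤ (θ - (1 - s) / 2) * (2 * (1 - x) - (1 + s - c)) :=
          mul_le_mul_of_nonneg_left hβx hg
        nlinarith
      · have h4' : x ≤ x' := by rw [hx, hx']; exact mono_div h4
        rcases le_total l' z1 with h5 | h5
        · have h6 : C1 l' ≤ C1 z1 := H.mono1 h5
          have h7 : β ≤ 2 * (1 - x') - (f + (1 + s) * (1 - x')) := by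
            rw [hβ]
            linarith
          have h8 := lo_mid hd0 hds hs1 hd hρ hρ0 hm1 H.m2_eq hml h4' f1 l0 hc2 v0 hβx h7
          nlinarith
        · have h6 : C0 z1 ≤ C0 l' := H.mono0 h5
          have h7 : f ≤ 1 + s - C0 l' := by
            have : 0 ≤ (1 + s) * (1 - x') := mul_nonneg (by linarith) (by linarith [px'.2])
            linarith
          have h8 := lo_early hθ0 hθ hd0 hds hd hρ hρ0 hm1 H.m2_eq hml h7 hf0 px.1 l0 hc2 v0 hβx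
          have h9 : (1 - θ) * (β + (1 + s - C0 l')) ≤ (1 - θ) * (2 * (1 - y)) :=
            mul_le_mul_of_nonneg_left (by linarith) hθ'
          nlinarith

end Pool.Agent.H5Lo
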