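import Pool.Agent.H5St.Reach

/-!
# The number of the points which are reached, `k B` dense on boxes
-/

set_option autoImplicit false

open Finset Classical

namespace Pool.Agent.H5Lo

open Pool.Agent.PlunTwo Pool.Agent.PlunRow Pool.Agent.H5St

theorem im_one_ge0 {q k : ℕ} {B : Set (ℕ × ℕ)} {Z : Finset (ℕ × ℕ)} {z : ℕ}
    (h : z < q + 1 → (z, 0) ∈ Z) :
    row 1 (kfold B k) (q + 1 - z) ≤ (im q k B 1 Z).card := by
  refine card_le_card_of_injOn (fun x => z + x) ?_ ?_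
  · intro x hx
    rw [mem_coe, mem_filter, mem_range] at hx
    rw [mem_coe, im, mem_filter, mem_range]
    refine ⟨?_, (z, 0), h (by omega), (x, 1), hx.2, ?_⟩
    · change z + x < q + 1
      omega
    · change (z + x, 0 + 1) = (z + x, 1)
      rw [zero_add]
  · intro x _ y _ hxy
    exact Nat.add_left_cancel hxy

/-- The three lower bounds for the weighted number of the reached points. -/
theorem reach_lo {q k : ℕ} {B : Set (ℕ × ℕ)} {Z : Finset (ℕ × ℕ)} {z0 z1 : ℕ} {δ θ s h : ℝ}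
    (hθ0 : 0 ≤ θ) (hθ1 : θ ≤ 1) (hs : 0 ≤ s)
    (hK0 : ∀ l ≤ q + 1, δ * (l : ℝ) ≤ row 0 (kfold B k) l)
    (hKt : ∀ l ≤ q + 1, 2 * δ * (l : ℝ) ≤ (row 0 (kfold B k) l : ℝ) + row 1 (kfold B k) l)
    (hKh : ∀ a b, b ≤ a → a + b ≤ q + 1 → δ * h * ((a : ℝ) + b) ≤
      (row 0 (kfold B k) a : ℝ) + row 1 (kfold B k) b)
    (hz0 : z0 ≤ q + 1) (hz1 : z1 ≤ q + 1)
    (h0 : z0 < q + 1 → (z0, 0) ∈ Z) (h1 : z1 < q + 1 → (z1, 1) ∈ Z) :
    (δ * ((θ + s) * (((q + 1 : ℕ) : ℝ) - z0) + (1 + s) * (((q + 1 : ℕ) : ℝ) - z1)) ≤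
      (θ + s) * (im q k B 0 Z).card + (1 + s) * (im q k B 1 Z).card) ∧
    (z0 ≤ z1 → z1 - z0 ≤ q + 1 - z1 →
      δ * ((2 * (θ + s) + (1 - θ) * h) * (((q + 1 : ℕ) : ℝ) - z0)) ≤
      (θ + s) * (im q k B 0 Z).card + (1 + s) * (im q k B 1 Z).card) ∧
    (z0 ≤ z1 → q + 1 - z1 ≤ z1 - z0 →
      δ * (2 * (θ + s) * (((q + 1 : ℕ) : ℝ) - z0) + 2 * (1 - θ) * (((q + 1 : ℕ) : ℝ) - z1)) ≤
      (θ + s) * (im q k B 0 Z).card + (1 + s) * (im q k B 1 Z).card) := by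
  have i0 : (row 0 (kfold B k) (q + 1 - z0) : ℝ) ≤ (im q k B 0 Z).card := by
    exact_mod_cast im_zero_ge h0
  have i1 : (row 0 (kfold B k) (q + 1 - z1) : ℝ) ≤ (im q k B 1 Z).card := by
    exact_mod_cast im_one_ge h1
  have i2 : (row 1 (kfold B k) (q + 1 - z0) : ℝ) ≤ (im q k B 1 Z).card := by
    exact_mod_cast im_one_ge0 h0
  have r0 := hK0 (q + 1 - z0) (by omega)
  have r1 := hK0 (q + 1 - z1) (by omega)
  have r2 := hKt (q + 1 - z0) (by omega)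
  rw [Nat.cast_sub hz0] at r0 r2
  rw [Nat.cast_sub hz1] at r1
  have p1 : 0 ≤ θ + s := by linarith
  have p2 : 0 ≤ 1 + s := by linarith
  have p3 : 0 ≤ 1 - θ := by linarith
  have e0 := mul_le_mul_of_nonneg_left (show 2 * δ * (((q + 1 : ℕ) : ℝ) - z0) ≤
    ((im q k B 0 Z).card : ℝ) + (im q k B 1 Z).card by linarith) p1
  refine ⟨?_, fun hz h' => ?_, fun hz h' => ?_⟩
  · have e1 := mul_le_mul_of_nonneg_left (r0.trans i0) p1
    have e2 := mul_le_mul_of_nonneg_left (r1.trans i1) p2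
    nlinarith
  · have i3 : (row 1 (kfold B k) (z1 - z0) : ℝ) + row 0 (kfold B k) (q + 1 - z1) ≤
        (im q k B 1 Z).card := by exact_mod_cast im_one_ge' hz hz1 h0 h1
    have k1 := hKh (q + 1 - z1) (z1 - z0) h' (by omega)
    rw [Nat.cast_sub hz1, Nat.cast_sub hz] at k1
    have e2 := mul_le_mul_of_nonneg_left (show δ * h * (((q + 1 : ℕ) : ℝ) - z0) ≤
      ((im q k B 1 Z).card : ℝ) by linarith) p3
    nlinarith
  · have i3 : (row 1 (kfold B k) (z1 - z0) : ℝ) + row 0 (kfold B k) (q + 1 - z1) ≤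
        (im q k B 1 Z).card := by exact_mod_cast im_one_ge' hz hz1 h0 h1
    have k2 := hKt (q + 1 - z1) (by omega)
    have k3 : (row 1 (kfold B k) (q + 1 - z1) : ℝ) ≤ row 1 (kfold B k) (z1 - z0) := by
      exact_mod_cast row_mono 1 _ h'
    rw [Nat.cast_sub hz1] at k2
    have e2 := mul_le_mul_of_nonneg_left (show 2 * δ * (((q + 1 : ℕ) : ℝ) - z1) ≤
      ((im q k B 1 Z).card : ℝ) by linarith) p3
    nlinarith

end Pool.Agent.H5Lo
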