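import Pool.Agent.H5St.TwoHall
import Pool.Agent.H5Lo.Prof
import Pool.Agent.H5Lo.Reach

/-!
# The weighted Hall condition for `θ ≤ 1 / 2`
-/

set_option autoImplicit false

open Finset Classical

namespace Pool.Agent.H5Lo

open Pool.Agent.PlunTwo Pool.Agent.PlunRow Pool.Agent.H5St

/-- **The weighted Hall condition.** -/
theorem hall_lo {q k : ℕ} (A B : Set (ℕ × ℕ)) {α δ θ s f d h ρ m1 : ℝ} {l' : ℕ} (hα : 0 < α)
    (hδ : 0 < δ) (hθ0 : 0 ≤ θ) (hθ : θ ≤ 1 / 2) (hd0 : 0 ≤ d) (hd1 : d ≤ 1) (hds : d ≤ s)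
    (hd : 1 - 2 * θ ≤ d) (hh : 1 - h ≤ d)
    (hρ : ρ = (1 + θ) * (s - d) / (1 + d)) (hm : m1 = (1 + d) * f / (s - d))
    (hr0 : α * (q + 1 : ℕ) * (1 + s) ≤ row 0 A (q + 1))
    (hr1 : α * (q + 1 : ℕ) * (1 - s) ≤ row 1 A (q + 1))
    (hK0 : ∀ l ≤ q + 1, δ * (l : ℝ) ≤ row 0 (kfold B k) l)
    (hKt : ∀ l ≤ q + 1, 2 * δ * (l : ℝ) ≤ (row 0 (kfold B k) l : ℝ) + row 1 (kfold B k) l)
    (hKh : ∀ a b, b ≤ a → a + b ≤ q + 1 → δ * h * ((a : ℝ) + b) ≤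
      (row 0 (kfold B k) a : ℝ) + row 1 (kfold B k) b)
    (H : Prof (q + 1) s f (nm A (α * (q + 1 : ℕ)) (α * (q + 1 : ℕ) * (1 + s)) 0)
      (nm A (α * (q + 1 : ℕ)) (α * (q + 1 : ℕ) * (1 - s)) 1) l')
    (hlow : ∀ l ≤ q + 1, (1 + d) * ((l : ℝ) / ((q + 1 : ℕ) : ℝ)) ≤
      nm A (α * (q + 1 : ℕ)) (α * (q + 1 : ℕ) * (1 + s)) 0 l) :
    ∀ Z ⊆ src q A, ∑ a ∈ Z, dd A (δ / (α * (1 + s)) * ρ)
      (δ / (α * (1 + s)) * ((1 - s) / 2)) (δ / (α * (1 + s)) * (s + θ)) (δ / (2 * α))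
      (α * (q + 1 : ℕ) * m1) (α * (q + 1 : ℕ) * (1 + s - 2 * f / (1 - s)))
      (α * (q + 1 : ℕ) * (1 + s)) (α * (q + 1 : ℕ) * (1 - s)) a ≤
      (θ + s) / (1 + s) * (im q k B 0 Z).card + 1 * (im q k B 1 Z).card := by
  intro Z hZ
  have hs := H.hs
  have hs1 := H.hs1
  have hL : (0 : ℝ) < ((q + 1 : ℕ) : ℝ) := by positivity
  have hs2 : 0 < 1 + s := by linarith
  obtain ⟨z0, hz0, hz0', hz0''⟩ := exists_first (fun x => (x, 0) ∈ Z) (q + 1)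
  obtain ⟨z1, hz1, hz1', hz1''⟩ := exists_first (fun x => (x, 1) ∈ Z) (q + 1)
  obtain ⟨t, ht⟩ : ∃ t, t = α * ((q + 1 : ℕ) : ℝ) := ⟨_, rfl⟩
  have ht0 : 0 < t := by rw [ht]; positivity
  rw [← ht] at hr0 hr1 H hlow ⊢
  have hm12 : m1 ≤ 1 + s - 2 * f / (1 - s) := by rw [hm]; exact m_le_lo H hd0 hds hlow
  have hm1 : 0 ≤ m1 := by rw [hm]; exact m1_nonneg_lo H hd0 hds
  have hρ0 : 0 ≤ ρ := by
    rw [hρ]
    exact div_nonneg (mul_nonneg (by linarith) (by linarith)) (by linarith)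
  have hm2 := H.m2_nonneg
  have hm3 : 1 + s - 2 * f / (1 - s) ≤ 1 + s := by linarith
  have hm4 : m1 ≤ 1 + s := hm12.trans hm3
  have hm5 : 0 ≤ 1 + s - 2 * f / (1 - s) := hm1.trans hm12
  have hu : 0 ≤ δ / (α * (1 + s)) := by positivity
  have hsum := sum_dd hZ (A := A) (e1 := δ / (α * (1 + s)) * ρ)
    (e2 := δ / (α * (1 + s)) * ((1 - s) / 2)) (e3 := δ / (α * (1 + s)) * (s + θ))
    (e4 := δ / (2 * α)) (c1 := t * m1) (c2 := t * (1 + s - 2 * f / (1 - s)))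
    (c3 := t * (1 + s)) (b := t * (1 - s))
    (mul_nonneg hu hρ0) (mul_nonneg hu (by linarith))
    (mul_nonneg hu (by linarith)) (by positivity) (mul_nonneg ht0.le hm1)
    (mul_nonneg ht0.le hm5) (by positivity) (mul_nonneg ht0.le (by linarith))
    ((mul_le_mul_of_nonneg_left hm4 ht0.le).trans hr0)
    ((mul_le_mul_of_nonneg_left hm3 ht0.le).trans hr0) hr0 hr1 hz0 hz1 hz0' hz1'
  refine hsum.trans ?_
  have hn0 : min (row 0 A z0 : ℝ) (t * (1 + s)) / t = nm A t (t * (1 + s)) 0 z0 := rfl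
  have hn1 : min (row 0 A z0 : ℝ) (t * (1 + s)) = t * nm A t (t * (1 + s)) 0 z0 := by
    rw [nm, mul_div_cancel₀ _ ht0.ne']
  have hn2 : min (row 1 A z1 : ℝ) (t * (1 - s)) = t * nm A t (t * (1 - s)) 1 z1 := by
    rw [nm, mul_div_cancel₀ _ ht0.ne']
  rw [min_scale ht0 hm4, min_scale ht0 hm3, hn0, hn1, hn2]
  obtain ⟨g1, g2, g3⟩ := reach_lo (θ := θ) (s := s) hθ0 (by linarith) hs hK0 hKt hKh hz0 hz1
    hz0'' hz1''
  set P : ℝ := (θ + s) * (im q k B 0 Z).card + (1 + s) * (im q k B 1 Z).card with hP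
  have hδL : 0 < δ * ((q + 1 : ℕ) : ℝ) := by positivity
  have hsub : ∀ z : ℕ, 1 - (z : ℝ) / ((q + 1 : ℕ) : ℝ) =
      (((q + 1 : ℕ) : ℝ) - z) / ((q + 1 : ℕ) : ℝ) := by
    intro z
    field_simp
  have key := feas_lo H (P := P / (δ * ((q + 1 : ℕ) : ℝ))) hθ0 hθ hd0 hd1 hds hd hh hlow hz0 hz1
    (fun _ => ?_) (fun h h' => ?_) fun h h' => ?_
  · rw [← hρ, ← hm, le_div_iff₀ hδL] at key
    have e : δ / (α * (1 + s)) * ρ *
          (t * m1 - t * min (nm A t (t * (1 + s)) 0 z0) m1) +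
        δ / (α * (1 + s)) * ((1 - s) / 2) * (t * (1 + s - 2 * f / (1 - s)) -
          t * min (nm A t (t * (1 + s)) 0 z0) (1 + s - 2 * f / (1 - s))) +
        δ / (α * (1 + s)) * (s + θ) * (t * (1 + s) - t * nm A t (t * (1 + s)) 0 z0) +
        δ / (2 * α) * (t * (1 - s) - t * nm A t (t * (1 - s)) 1 z1) =
        (tlo ρ θ s m1 (2 * f / (1 - s)) (nm A t (t * (1 + s)) 0 z0) +
          (1 + s) / 2 * (1 - s - nm A t (t * (1 - s)) 1 z1)) * (δ * ((q + 1 : ℕ) : ℝ)) /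
            (1 + s) := by
      unfold tlo
      rw [ht]
      generalize min (nm A (α * ((q + 1 : ℕ) : ℝ)) (α * ((q + 1 : ℕ) : ℝ) * (1 + s)) 0 z0)
        m1 = w1
      generalize min (nm A (α * ((q + 1 : ℕ) : ℝ)) (α * ((q + 1 : ℕ) : ℝ) * (1 + s)) 0 z0)
        (1 + s - 2 * f / (1 - s)) = w2
      generalize nm A (α * ((q + 1 : ℕ) : ℝ)) (α * ((q + 1 : ℕ) : ℝ) * (1 + s)) 0 z0 = w3
      generalize nm A (α * ((q + 1 : ℕ) : ℝ)) (α * ((q + 1 : ℕ) : ℝ) * (1 - s)) 1 z1 = w4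
      generalize 2 * f / (1 - s) = w6
      field_simp
    rw [e, div_le_iff₀ hs2]
    refine key.trans (le_of_eq ?_)
    rw [hP]
    field_simp
  · rw [le_div_iff₀ hδL, hsub, hsub]
    refine le_trans (le_of_eq ?_) g1
    field_simp
  · rw [le_div_iff₀ hδL, hsub]
    refine le_trans (le_of_eq ?_) (g2 h h')
    field_simp
  · rw [le_div_iff₀ hδL, hsub, hsub]
    refine le_trans (le_of_eq ?_) (g3 h h')
    field_simp

end Pool.Agent.H5Lo
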