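import Pool.Agent.H5Lo.Prof

/-!
# The first part of the density pays for the last one, `θ ≤ 1 / 2`
-/

set_option autoImplicit false

namespace Pool.Agent.H5Lo

open Pool.Agent.H5St

/-- Bernoulli's inequality, in the form of a lower bound. -/
theorem pow_ge {y θ : ℝ} (hy : -1 < y) (hθ0 : 0 ≤ θ) (hθ1 : θ ≤ 1) :
    1 + y ≤ (1 + y) ^ θ * (1 + (1 - θ) * y) := by
  have h1 : 0 < 1 + y := by linarith
  have h2 := rpow_one_add_le_one_add_mul_self hy.le (sub_nonneg.2 hθ1)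
    (show 1 - θ ≤ 1 by linarith)
  calc 1 + y = (1 + y) ^ θ * (1 + y) ^ (1 - θ) := by
        rw [← Real.rpow_add h1, add_sub_cancel, Real.rpow_one]
    _ ≤ _ := mul_le_mul_of_nonneg_left h2 (Real.rpow_nonneg h1.le _)

/-- The comparison of the two parts. -/
theorem star_lo {θ d s Q : ℝ} (hθ0 : 0 < θ) (hθ : θ ≤ 1 / 2) (hd0 : 0 ≤ d) (hd : 1 - 2 * θ ≤ d)
    (hds : d ≤ s) (hs1 : s ≤ 1) (hQ : Q = θ + (1 + s) / 2) :
    2 * (s - d) * (1 - ((s + θ) / Q) ^ θ) ≤
      (1 - s) * (1 + d) * ((1 + (1 + θ) * (s - d) / (1 + d) / Q) ^ θ - 1) := by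
  have hQ0 : 0 < Q := by rw [hQ]; linarith
  have hd1 : 0 < 1 + d := by linarith
  obtain ⟨y, hy⟩ : ∃ y, y = (1 + θ) * (s - d) / (1 + d) / Q := ⟨_, rfl⟩
  obtain ⟨z, hz⟩ : ∃ z, z = -((1 - s) / 2 / Q) := ⟨_, rfl⟩
  have hy0 : 0 ≤ y := by
    rw [hy]
    exact div_nonneg (div_nonneg (mul_nonneg (by linarith) (by linarith)) hd1.le) hQ0.le
  have hz1 : -1 < z := by
    rw [hz, neg_lt_neg_iff, div_lt_one hQ0, hQ]
    linarith
  have hyQ : y * ((1 + d) * Q) = (1 + θ) * (s - d) := by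
    rw [hy]
    field_simp
  have hzQ : z * (2 * Q) = -(1 - s) := by
    rw [hz]
    field_simp
  have ht : (s + θ) / Q = 1 + z := by
    rw [div_eq_iff hQ0.ne']
    have : (1 + z) * Q = Q + z * (2 * Q) / 2 := by ring
    rw [this, hzQ, hQ]
    ring
  rw [ht, ← hy]
  have B1 := pow_ge (show -1 < y by linarith) hθ0.le (show θ ≤ 1 by linarith)
  have B2 := pow_ge hz1 hθ0.le (show θ ≤ 1 by linarith)
  set p1 := (1 + y) ^ θ with hp1
  set p3 := (1 + z) ^ θ with hp3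
  -- the two bounds, without denominators
  have U0 : 0 < (1 + d) * Q + (1 - θ ^ 2) * (s - d) := by
    have : 0 < (1 + d) * Q := mul_pos hd1 hQ0
    have : 0 ≤ (1 - θ ^ 2) * (s - d) := mul_nonneg (by nlinarith) (by linarith)
    linarith
  have W0 : 0 < 2 * Q - (1 - θ) * (1 - s) := by
    rw [hQ]
    nlinarith
  have hU : θ * (1 + θ) * (s - d) ≤ (p1 - 1) * ((1 + d) * Q + (1 - θ ^ 2) * (s - d)) := by
    have h := mul_le_mul_of_nonneg_right B1 (mul_pos hd1 hQ0).le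
    have e1 : (1 + y) * ((1 + d) * Q) = (1 + d) * Q + (1 + θ) * (s - d) := by
      rw [add_mul, hyQ]
      ring
    have e2 : p1 * (1 + (1 - θ) * y) * ((1 + d) * Q) =
        p1 * ((1 + d) * Q + (1 - θ) * ((1 + θ) * (s - d))) := by
      rw [← hyQ]
      ring
    rw [e1, e2] at h
    linarith
  have hW : (1 - p3) * (2 * Q - (1 - θ) * (1 - s)) ≤ θ * (1 - s) := by
    have h := mul_le_mul_of_nonneg_right B2 (show 0 ≤ 2 * Q by linarith)
    have e1 : (1 + z) * (2 * Q) = 2 * Q - (1 - s) := by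
      rw [add_mul, hzQ]
      ring
    have e2 : p3 * (1 + (1 - θ) * z) * (2 * Q) = p3 * (2 * Q - (1 - θ) * (1 - s)) := by
      have : p3 * (1 + (1 - θ) * z) * (2 * Q) = p3 * (2 * Q + (1 - θ) * (z * (2 * Q))) := by ring
      rw [this, hzQ]
      ring
    rw [e1, e2] at h
    linarith
  -- the comparison of the denominators
  have hUW : 2 * ((1 + d) * Q + (1 - θ ^ 2) * (s - d)) ≤
      (1 + d) * (1 + θ) * (2 * Q - (1 - θ) * (1 - s)) := by
    have k1 : 0 ≤ (1 - θ) * θ ^ 2 * (1 - s) :=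
      mul_nonneg (mul_nonneg (by linarith) (by positivity)) (by linarith)
    have k2 : 0 ≤ (d - (1 - 2 * θ)) * (2 * θ * Q + (1 - θ ^ 2) * (1 + s)) := by
      refine mul_nonneg (by linarith) (add_nonneg (by positivity) (mul_nonneg ?_ ?_))
      · nlinarith
      · linarith
    have e : (1 + d) * (1 + θ) * (2 * Q - (1 - θ) * (1 - s)) -
        2 * ((1 + d) * Q + (1 - θ ^ 2) * (s - d)) =
        2 * ((1 - θ) * θ ^ 2 * (1 - s)) +
          (d - (1 - 2 * θ)) * (2 * θ * Q + (1 - θ ^ 2) * (1 + s)) := by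
      rw [hQ]
      ring
    linarith
  -- conclusion
  set U := (1 + d) * Q + (1 - θ ^ 2) * (s - d) with hUd
  set W := 2 * Q - (1 - θ) * (1 - s) with hWd
  have g1 : 1 - p3 ≤ θ * (1 - s) / W := by rw [le_div_iff₀ W0]; exact hW
  have g2 : θ * (1 + θ) * (s - d) / U ≤ p1 - 1 := by rw [div_le_iff₀ U0]; exact hU
  have h2s : 0 ≤ 2 * (s - d) := by linarith
  have h1s : 0 ≤ (1 - s) * (1 + d) := mul_nonneg (by linarith) hd1.le
  refine (mul_le_mul_of_nonneg_left g1 h2s).trans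
    (le_trans ?_ (mul_le_mul_of_nonneg_left g2 h1s))
  rw [← mul_div_assoc, ← mul_div_assoc, div_le_div_iff₀ W0 U0]
  have k : 0 ≤ θ * (1 - s) * (s - d) :=
    mul_nonneg (mul_nonneg hθ0.le (by linarith)) (by linarith)
  have := mul_le_mul_of_nonneg_left hUW k
  nlinarith

/-- The first and the last part of the row `0` together. -/
theorem parts_lo {L l' : ℕ} {s f d : ℝ} {C0 C1 : ℕ → ℝ} (H : Prof L s f C0 C1 l')
    (hds : d ≤ s) (hlow : ∀ l ≤ L, (1 + d) * ((l : ℝ) / L) ≤ C0 l) {p1 p3 : ℝ}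
    (h : 2 * (s - d) * (1 - p3) ≤ (1 - s) * (1 + d) * (p1 - 1)) :
    1 + s ≤ p1 * ((1 + d) * f / (s - d)) + (1 + s - 2 * f / (1 - s) - (1 + d) * f / (s - d)) +
      p3 * (1 + s - (1 + s - 2 * f / (1 - s))) := by
  rcases f_cases H hds hlow with h0 | ⟨hf, h1, h2⟩
  · rw [h0]
    simp only [mul_zero, zero_div]
    linarith
  · have key : 0 ≤ f / ((s - d) * (1 - s)) *
        ((1 - s) * (1 + d) * (p1 - 1) - 2 * (s - d) * (1 - p3)) :=
      mul_nonneg (by positivity) (by linarith)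
    have e : f / ((s - d) * (1 - s)) * ((1 - s) * (1 + d) * (p1 - 1) - 2 * (s - d) * (1 - p3)) =
        p1 * ((1 + d) * f / (s - d)) + (1 + s - 2 * f / (1 - s) - (1 + d) * f / (s - d)) +
          p3 * (1 + s - (1 + s - 2 * f / (1 - s))) - (1 + s) := by
      have := h1.ne'
      have := h2.ne'
      field_simp
      ring
    linarith

end Pool.Agent.H5Lo
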