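import Pool.Agent.H5St.Half
import Pool.Agent.H65R.Reach2
import Pool.Agent.H5Lo.Hall
import Pool.Agent.H5Lo.Star

/-!
# The exact inequality for `θ ≤ 1 / 2` when the row `0` of `A` has the surplus `a ≥ 2 - 2 θ`
-/

set_option autoImplicit false

open Finset Classical

namespace Pool.Agent.H5Lo

open Pool.Agent.PlunTwo Pool.Agent.PlunRow Pool.Agent.H5St

/-- **The exact inequality for `2 k' ≤ k`.** -/
theorem low_bound {q j k : ℕ} (hj : 0 < j) (hk : j < k) (hk2 : 2 * j ≤ k) (A B : Set (ℕ × ℕ))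
    {α δ a h : ℝ} (hα : 0 < α) (hδ : 0 < δ) (ha : 1 ≤ a)
    (hA0 : ∀ l ≤ q + 1, a * α * (l : ℝ) ≤ row 0 A l)
    (hA : ∀ l ≤ q + 1, 2 * α * (l : ℝ) ≤ (row 0 A l : ℝ) + row 1 A l)
    (hK : Boxy q (kfold B k) δ 1 h) (hah : 2 ≤ a + h) (hat : 2 - 2 * ((j : ℝ) / k) ≤ a) :
    2 * (α ^ (1 - (j : ℝ) / k) * δ ^ ((j : ℝ) / k)) * ((q + 1 : ℕ) : ℝ) ≤
      (row 0 (msum A (kfold B j)) (q + 1) : ℝ) + row 1 (msum A (kfold B j)) (q + 1) := by
  obtain ⟨hθ0, hθ1⟩ := theta_pos hj hk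
  have hθ2 : (j : ℝ) / k ≤ 1 / 2 := by
    have hk0 : (0 : ℝ) < k := by exact_mod_cast hj.trans hk
    rw [div_le_iff₀ hk0]
    have : 2 * (j : ℝ) ≤ k := by exact_mod_cast hk2
    linarith
  -- the surplus
  obtain ⟨d, hdd⟩ : ∃ d, d = min (a - 1) 1 := ⟨_, rfl⟩
  have hd0 : 0 ≤ d := by rw [hdd]; exact le_min (by linarith) zero_le_one
  have hd1 : d ≤ 1 := by rw [hdd]; exact min_le_right _ _
  have hda : 1 + d ≤ a := by
    have : d ≤ a - 1 := by rw [hdd]; exact min_le_left _ _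
    linarith
  have hK0 : ∀ l ≤ q + 1, δ * (l : ℝ) ≤ row 0 (kfold B k) l := by
    intro l hl
    have := hK.zero l hl
    rwa [one_mul] at this
  -- the density of the staircases may be supposed to be nonnegative
  obtain ⟨h', hh'⟩ : ∃ h', h' = max h 0 := ⟨_, rfl⟩
  have hKt : ∀ l ≤ q + 1, 2 * δ * (l : ℝ) ≤
      (row 0 (kfold B k) l : ℝ) + row 1 (kfold B k) l := by
    intro l hl
    have := hK.both l hl
    linarith
  have hKh : ∀ x y, y ≤ x → x + y ≤ q + 1 → δ * h' * ((x : ℝ) + y) ≤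
      (row 0 (kfold B k) x : ℝ) + row 1 (kfold B k) y := by
    intro x y hyx hxy
    rcases le_total 0 h with h1 | h1
    · have := hK.stair x y hyx hxy
      rw [hh', max_eq_left h1]
      linarith
    · rw [hh', max_eq_right h1, mul_zero, zero_mul]
      positivity
  have hhd : 1 - h' ≤ d := by
    have h1 : h ≤ h' := by rw [hh']; exact le_max_left _ _
    have h2 : 0 ≤ h' := by rw [hh']; exact le_max_right _ _
    rw [hdd]
    exact le_min (by linarith) (by linarith)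
  have hd2 : 1 - 2 * ((j : ℝ) / k) ≤ d := by
    rw [hdd]
    exact le_min (by linarith) (by linarith)
  have hA0' : ∀ l ≤ q + 1, α * (l : ℝ) ≤ row 0 A l := by
    intro l hl
    refine le_trans ?_ (hA0 l hl)
    have : 0 ≤ (a - 1) * (α * (l : ℝ)) := mul_nonneg (by linarith) (by positivity)
    linarith
  -- the cut
  obtain ⟨l0, hl0, hmax⟩ := exists_max_image (range (q + 1 + 1))
    (fun l => 2 * α * (l : ℝ) - row 0 A l) ⟨0, mem_range.2 (by omega)⟩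
  rw [mem_range] at hl0
  set b : ℝ := 2 * α * (l0 : ℝ) - row 0 A l0 with hbdef
  have hb : ∀ l ≤ q + 1, 2 * α * (l : ℝ) - row 0 A l ≤ b := fun l hl =>
    hmax l (mem_range.2 (by omega))
  have hb' : ∃ l ≤ q + 1, b = 2 * α * (l : ℝ) - row 0 A l := ⟨l0, by omega, hbdef⟩
  have hb0 : 0 ≤ b := by
    have := hb 0 (by omega)
    simpa [row] using this
  have hL : (0 : ℝ) < ((q + 1 : ℕ) : ℝ) := by positivity
  have ht0 : 0 < α * ((q + 1 : ℕ) : ℝ) := by positivity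
  have hbL : b ≤ (1 - d) * (α * ((q + 1 : ℕ) : ℝ)) := by
    have h1 := hA0 l0 (by omega)
    have h2 : (l0 : ℝ) ≤ ((q + 1 : ℕ) : ℝ) := by
      have : l0 ≤ q + 1 := by omega
      exact_mod_cast this
    have h3 : (1 + d) * (α * (l0 : ℝ)) ≤ a * (α * (l0 : ℝ)) :=
      mul_le_mul_of_nonneg_right hda (by positivity)
    have h4 : (1 - d) * (α * (l0 : ℝ)) ≤ (1 - d) * (α * ((q + 1 : ℕ) : ℝ)) :=
      mul_le_mul_of_nonneg_left (mul_le_mul_of_nonneg_left h2 hα.le) (by linarith)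
    rw [hbdef]
    linarith
  obtain ⟨htot0, htot1⟩ := cut_total A hA hb hb'
  obtain ⟨s, hs⟩ : ∃ s, s = 1 - b / (α * ((q + 1 : ℕ) : ℝ)) := ⟨_, rfl⟩
  have hds : d ≤ s := by
    have : b / (α * ((q + 1 : ℕ) : ℝ)) ≤ 1 - d := by
      rw [div_le_iff₀ ht0]
      exact hbL
    rw [hs]
    linarith
  have hs0 : 0 ≤ s := hd0.trans hds
  have hs1 : s ≤ 1 := by
    rw [hs]
    have : 0 ≤ b / (α * ((q + 1 : ℕ) : ℝ)) := div_nonneg hb0 ht0.le
    linarith
  have hbs : α * ((q + 1 : ℕ) : ℝ) * (1 - s) = b := by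
    rw [hs]
    field_simp
    ring
  have hbs' : α * ((q + 1 : ℕ) : ℝ) * (1 + s) = 2 * α * ((q + 1 : ℕ) : ℝ) - b := by
    rw [← hbs]
    ring
  have hr0 : α * ((q + 1 : ℕ) : ℝ) * (1 + s) ≤ row 0 A (q + 1) := by
    rw [hbs', ← htot0]
    exact min_le_left _ _
  have hr1 : α * ((q + 1 : ℕ) : ℝ) * (1 - s) ≤ row 1 A (q + 1) := by
    rw [hbs, ← htot1]
    exact min_le_left _ _
  obtain ⟨f, l', H⟩ := exists_prof A hα hs0 hs1 hA0' hA (by rw [hbs]; exact hb)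
    (by rw [hbs]; exact hb')
  have hlow : ∀ l ≤ q + 1, (1 + d) * ((l : ℝ) / ((q + 1 : ℕ) : ℝ)) ≤
      nm A (α * (q + 1 : ℕ)) (α * (q + 1 : ℕ) * (1 + s)) 0 l := by
    intro l hl
    have hl1 : (l : ℝ) / ((q + 1 : ℕ) : ℝ) ≤ 1 := by
      rw [div_le_one hL]
      exact_mod_cast hl
    have hl2 : 0 ≤ (l : ℝ) / ((q + 1 : ℕ) : ℝ) := by positivity
    rw [nm, le_div_iff₀ ht0, le_min_iff]
    constructor
    · refine le_trans ?_ (hA0 l hl)
      have e : (1 + d) * ((l : ℝ) / ((q + 1 : ℕ) : ℝ)) * (α * ((q + 1 : ℕ) : ℝ)) =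
          (1 + d) * (α * (l : ℝ)) := by
        field_simp
      rw [e, mul_assoc]
      exact mul_le_mul_of_nonneg_right hda (by positivity)
    · have e1 : (1 + d) * ((l : ℝ) / ((q + 1 : ℕ) : ℝ)) ≤ (1 + s) * 1 :=
        mul_le_mul (by linarith) hl1 hl2 (by linarith)
      have := mul_le_mul_of_nonneg_right e1 ht0.le
      linarith
  obtain ⟨ρ, hρ⟩ : ∃ ρ, ρ = (1 + (j : ℝ) / k) * (s - d) / (1 + d) := ⟨_, rfl⟩
  obtain ⟨m1, hm⟩ : ∃ m1, m1 = (1 + d) * f / (s - d) := ⟨_, rfl⟩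
  have hHall := hall_lo (θ := (j : ℝ) / k) A B hα hδ hθ0.le hθ2 hd0 hd1 hds hd2 hhd hρ hm hr0 hr1
    hK0 hKt hKh H hlow
  -- abbreviations
  set θ : ℝ := (j : ℝ) / k with hθ
  have hm12 : m1 ≤ 1 + s - 2 * f / (1 - s) := by rw [hm]; exact m_le_lo H hd0 hds hlow
  obtain ⟨t, ht⟩ : ∃ t, t = α * ((q + 1 : ℕ) : ℝ) := ⟨_, rfl⟩
  obtain ⟨Q, hQ⟩ : ∃ Q, Q = θ + (1 + s) / 2 := ⟨_, rfl⟩
  have hQ0 : 0 < Q := by rw [hQ]; linarith
  -- the left side
  obtain ⟨p1, hp1⟩ : ∃ p1, p1 = (1 + ρ / Q) ^ θ := ⟨_, rfl⟩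
  obtain ⟨p3, hp3⟩ : ∃ p3, p3 = ((s + θ) / Q) ^ θ := ⟨_, rfl⟩
  have hparts := parts_lo H hds hlow (p1 := p1) (p3 := p3) (by
    rw [hp1, hp3, hρ]
    exact star_lo hθ0 hθ2 hd0 hd2 hds hs1 hQ)
  rw [← hm] at hparts
  rw [← ht] at ht0 hr0 hr1 hHall
  have hs2 : 0 < 1 + s := by linarith
  have hm1 : 0 ≤ m1 := by rw [hm]; exact m1_nonneg_lo H hd0 hds
  have hρ0 : 0 ≤ ρ := by
    rw [hρ]
    exact div_nonneg (mul_nonneg (by linarith) (by linarith)) (by linarith)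
  have hm2 := H.m2_nonneg
  have hm3 : 1 + s - 2 * f / (1 - s) ≤ 1 + s := by linarith
  have hm5 : 0 ≤ 1 + s - 2 * f / (1 - s) := hm1.trans hm12
  have hu : 0 < δ / (α * (1 + s)) := by positivity
  have he1 : 0 ≤ δ / (α * (1 + s)) * ρ := mul_nonneg hu.le hρ0
  have he2 : 0 ≤ δ / (α * (1 + s)) * ((1 - s) / 2) := mul_nonneg hu.le (by linarith)
  have he3 : 0 ≤ δ / (α * (1 + s)) * (s + θ) := mul_nonneg hu.le (by linarith)
  have he4 : 0 ≤ δ / (2 * α) := by positivity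
  have hv0 : 0 < Q / (1 + s) := div_pos hQ0 hs2
  have key := Pool.Agent.H65U.main_U hj hk A B (u0 := (θ + s) / (1 + s)) (u1 := 1)
    (v0 := Q / (1 + s)) (v1 := 1 / 2) (fun a _ => dd_nonneg he1 he2 he3 he4 a)
    (div_nonneg (by linarith) hs2.le) zero_le_one hv0.le (by norm_num) hHall
  obtain ⟨hF0, hF1⟩ := Pool.Agent.H10Star.sum_dd_rpow (q := q) A he1 he2 he3 he4
    (c1 := t * m1) (c2 := t * (1 + s - 2 * f / (1 - s))) (c3 := t * (1 + s))
    (b := t * (1 - s)) (mul_nonneg ht0.le hm1) (mul_le_mul_of_nonneg_left hm12 ht0.le)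
    (mul_le_mul_of_nonneg_left hm3 ht0.le) hr0 (mul_nonneg ht0.le (by linarith)) hr1 hθ0.le hθ1.le
  obtain ⟨dn, hdn⟩ : ∃ dn, dn = dd A (δ / (α * (1 + s)) * ρ)
    (δ / (α * (1 + s)) * ((1 - s) / 2)) (δ / (α * (1 + s)) * (s + θ)) (δ / (2 * α))
    (t * m1) (t * (1 + s - 2 * f / (1 - s))) (t * (1 + s)) (t * (1 - s)) := ⟨_, rfl⟩
  rw [← hθ, ← hdn] at key
  rw [← hdn] at hF0 hF1
  set R0 : ℝ := (row 0 (msum A (kfold B j)) (q + 1) : ℝ) with hR0
  set R1 : ℝ := (row 1 (msum A (kfold B j)) (q + 1) : ℝ) with hR1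
  have hR0n : 0 ≤ R0 := Nat.cast_nonneg _
  have hR1n : 0 ≤ R1 := Nat.cast_nonneg _
  -- the right side
  have amgm := Real.geom_mean_le_arith_mean2_weighted hθ0.le (sub_nonneg.2 hθ1.le)
    (show 0 ≤ (θ + s) / (1 + s) * R0 + 1 * R1 from
      add_nonneg (mul_nonneg (div_nonneg (by linarith) hs2.le) hR0n) (by linarith))
    (show 0 ≤ Q / (1 + s) * R0 + 1 / 2 * R1 by positivity) (by ring)
  have hright : θ * ((θ + s) / (1 + s) * R0 + 1 * R1) +
      (1 - θ) * (Q / (1 + s) * R0 + 1 / 2 * R1) = (1 + θ) / 2 * (R0 + R1) := by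
    rw [hQ]
    field_simp
    ring
  rw [hright] at amgm
  have hratio : 0 < δ / α := div_pos hδ hα
  have y1 : 0 ≤ 1 + ρ / Q := by
    have : 0 ≤ ρ / Q := div_nonneg hρ0 hQ0.le
    linarith
  have y3 : 0 ≤ (s + θ) / Q := div_nonneg (by linarith) hQ0.le
  have E1 : δ / (α * (1 + s)) * ρ + δ / (α * (1 + s)) * ((1 - s) / 2) +
      δ / (α * (1 + s)) * (s + θ) = δ / α * (Q / (1 + s) * (1 + ρ / Q)) := by
    have : Q / (1 + s) * (1 + ρ / Q) = (Q + ρ) / (1 + s) := by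
      field_simp
    rw [this, hQ]
    field_simp
    ring
  have E2 : δ / (α * (1 + s)) * ((1 - s) / 2) + δ / (α * (1 + s)) * (s + θ) =
      δ / α * (Q / (1 + s) * 1) := by
    rw [hQ]
    field_simp
    ring
  have E3 : δ / (α * (1 + s)) * (s + θ) = δ / α * (Q / (1 + s) * ((s + θ) / Q)) := by
    have : Q / (1 + s) * ((s + θ) / Q) = (s + θ) / (1 + s) := by
      field_simp
    rw [this]
    field_simp
  have E4 : δ / (2 * α) = δ / α * (1 / 2 * 1) := by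
    field_simp
  rw [E1, E2, E3] at hF0
  rw [E4] at hF1
  have M1 := rpow_mix (a := δ / α) (x := Q / (1 + s)) (y := 1 + ρ / Q) (θ := θ)
    hratio.le hv0 y1
  have M2 := rpow_mix (a := δ / α) (x := Q / (1 + s)) (y := 1) (θ := θ) hratio.le hv0 zero_le_one
  have M3 := rpow_mix (a := δ / α) (x := Q / (1 + s)) (y := (s + θ) / Q) (θ := θ)
    hratio.le hv0 y3
  have M4 := rpow_mix (a := δ / α) (x := 1 / 2) (y := 1) (θ := θ) hratio.le (by norm_num)
    zero_le_one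
  rw [← hp1] at M1
  rw [← hp3] at M3
  rw [Real.one_rpow] at M2 M4
  have G0 := mul_le_mul_of_nonneg_left hF0 (Real.rpow_nonneg hv0.le (1 - θ))
  have G1 := mul_le_mul_of_nonneg_left hF1
    (Real.rpow_nonneg (show (0 : ℝ) ≤ 1 / 2 by norm_num) (1 - θ))
  have hleft : (δ / α) ^ θ * t * (1 + θ) ≤ (1 + θ) / 2 * (R0 + R1) := by
    refine le_trans ?_ ((add_le_add G0 G1).trans (key.trans amgm))
    have r0 : 0 < (δ / α) ^ θ := Real.rpow_pos_of_pos hratio _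
    have e : (Q / (1 + s)) ^ (1 - θ) *
          ((δ / α * (Q / (1 + s) * (1 + ρ / Q))) ^ θ * (t * m1) +
            (δ / α * (Q / (1 + s) * 1)) ^ θ * (t * (1 + s - 2 * f / (1 - s)) - t * m1) +
            (δ / α * (Q / (1 + s) * ((s + θ) / Q))) ^ θ *
              (t * (1 + s) - t * (1 + s - 2 * f / (1 - s)))) +
          (1 / 2 : ℝ) ^ (1 - θ) * ((δ / α * (1 / 2 * 1)) ^ θ * (t * (1 - s))) =
        (δ / α) ^ θ * t * (Q / (1 + s) * (p1 * m1 +
          (1 + s - 2 * f / (1 - s) - m1) +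
          p3 * (1 + s - (1 + s - 2 * f / (1 - s)))) + 1 / 2 * (1 - s)) := by
      linear_combination (t * m1) * M1 +
        (t * (1 + s - 2 * f / (1 - s)) - t * m1) * M2 +
        (t * (1 + s) - t * (1 + s - 2 * f / (1 - s))) * M3 + (t * (1 - s)) * M4
    rw [e]
    refine mul_le_mul_of_nonneg_left ?_ (mul_nonneg r0.le ht0.le)
    have h1 := mul_le_mul_of_nonneg_left hparts hv0.le
    have h2 : Q / (1 + s) * (1 + s) = Q := by field_simp
    rw [h2] at h1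
    have h3 : Q + 1 / 2 * (1 - s) = 1 + θ := by
      rw [hQ]
      ring
    linarith
  have h1θ : 0 < 1 + θ := by linarith
  have hfin : (δ / α) ^ θ * t * 2 ≤ R0 + R1 := by
    have h : (1 + θ) / 2 * ((δ / α) ^ θ * t * 2) ≤ (1 + θ) / 2 * (R0 + R1) := by
      refine le_trans (le_of_eq ?_) hleft
      ring
    exact le_of_mul_le_mul_left h (by linarith)
  refine le_trans (le_of_eq ?_) hfin
  have e1 : α ^ (1 - θ) * δ ^ θ = (δ / α) ^ θ * α := by
    rw [Real.div_rpow hδ.le hα.le, Real.rpow_sub hα, Real.rpow_one]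
    field_simp
  rw [e1, ht]
  ring

end Pool.Agent.H5Lo
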